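import Pool.Agent.H57.SL.Int
import Pool.Agent.H67.AQ.Defs

/-!
# H32 AQ INT: chapter LA of AQ (MP_b39724_nt): interfaces (complete)

Text: think 1560 (LA). The analytic part of H57/SL (files Mux, Vfo, Vfa, Vfc) for an abstract family: an index type `I`, the sizes `D : I → ℝ` (`1 ≤ D c`) and the
coefficients `mu : I → Pl K → ℝ` (`-1 ≤ mu ≤ 2`). `AC1`, `AC2`: power saving for one member and for two members which are not related by `r`; `AMX`: few exceptions;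
`AA3`, `AA4`: the main term `Am c * Y` of `FF S (mu c) Y`; `AAX`: `Am c` is close to the truncated sum, few exceptions.
In the application `I` is the type of the characters in `H38.MT.Ch K`, `D = cf Q S`, `mu = H67.AQ.mu Q`, `r c c' : c' = c ∨ c' = c⁻¹`.
-/

set_option autoImplicit false

open scoped NumberField Classical
open IsDedekindDomain H63.MA NumberField H36.QA H57.LI H57.LC H67.SX H38.ML H57.SL

noncomputable section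

namespace H32.AQ

variable {K : IntermediateField ℚ QBar} [NumberField K] {I : Type}

/-- power saving for one member -/
def AC1 (S : Finset (Pl K)) (D : I → ℝ) (mu : I → Pl K → ℝ) : Prop :=
  ∃ (C : ℝ) (A : ℕ) (δ : ℝ), 1 ≤ C ∧ 0 < δ ∧ δ ≤ 1 / 4 ∧ ∀ (c : I) (e : Finset (Pl K))
    (Y : ℝ), 1 ≤ Y →
    |(prK K).SS (off (S ∪ e) (mu c)) Y| ≤ C * C ^ e.card * D c ^ A * Y ^ (1 - δ)

/-- power saving for two members -/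
def AC2 (S : Finset (Pl K)) (D : I → ℝ) (mu : I → Pl K → ℝ) (r : I → I → Prop) : Prop :=
  ∃ (C : ℝ) (A : ℕ) (δ : ℝ), 1 ≤ C ∧ 0 < δ ∧ δ ≤ 1 / 4 ∧ ∀ c c' : I, ¬ r c c' →
    ∀ (e : Finset (Pl K)) (Y : ℝ), 1 ≤ Y →
    |∑ s ∈ (prK K).SF Y, pd (off (S ∪ e) (mu c)) s * pd (off (S ∪ e) (mu c')) s| ≤
      C * C ^ e.card * (D c * D c') ^ A * Y ^ (1 - δ)

/-- few exceptions -/
def AMX (S : Finset (Pl K)) (D : I → ℝ) (mu : I → Pl K → ℝ) : Prop :=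
  ∀ (A₁ B B1 : ℕ) (ε : ℝ), 0 < ε → ∃ R₀ : ℝ, 3 ≤ R₀ ∧ ∀ R : ℝ, R₀ ≤ R → ∀ J : Set I,
    (∀ c ∈ J, D c ≤ R ^ A₁ ∧ ∃ e : Finset (Pl K), (prK K).nn e ≤ Real.log R ^ B1 ∧
      ∃ Z : ℝ, Real.exp (Real.log (Real.log (Real.sqrt R)) ^ 3) ≤ Z ∧
        Z / Real.log R ^ B < |(prK K).SS (off (S ∪ e) (mu c)) Z|) →
    J.Finite ∧ (J.ncard : ℝ) ≤ R ^ ε

/-- the main term -/
def AA3 (S : Finset (Pl K)) (D : I → ℝ) (mu : I → Pl K → ℝ) (Am : I → ℝ) : Prop :=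
  ∃ (C : ℝ) (A : ℕ) (δ : ℝ), 1 ≤ C ∧ 0 < δ ∧ δ ≤ 1 ∧ ∀ c : I,
    0 ≤ Am c ∧ Am c ≤ C * (1 + Real.log (D c)) ^ 3 ∧
    ∀ Y : ℝ, 1 ≤ Y → |FF S (mu c) Y - Am c * Y| ≤ C * D c ^ A * Y ^ (1 - δ)

/-- the main term, few exceptions -/
def AA4 (S : Finset (Pl K)) (D : I → ℝ) (mu : I → Pl K → ℝ) (Am : I → ℝ) : Prop :=
  ∀ (A₁ B : ℕ) (ε : ℝ), 0 < ε → ∃ R₀ : ℝ, 3 ≤ R₀ ∧ ∀ R : ℝ, R₀ ≤ R → ∀ J : Set I,
    (∀ c ∈ J, D c ≤ R ^ A₁ ∧ ∃ Y : ℝ, Real.exp (Real.log (Real.log R) ^ 3) ≤ Y ∧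
      Y / Real.log R ^ B < |FF S (mu c) Y - Am c * Y|) →
    J.Finite ∧ (J.ncard : ℝ) ≤ R ^ ε

/-- `Am c` is close to the truncated sum with few exceptions -/
def AAX (S : Finset (Pl K)) (D : I → ℝ) (mu : I → Pl K → ℝ) (Am : I → ℝ) : Prop :=
  ∀ η₀ : ℝ, 0 < η₀ → η₀ ≤ 1 → ∃ R₀ : ℝ, 3 ≤ R₀ ∧ ∀ R : ℝ, R₀ ≤ R →
    {c : I | D c ≤ R ∧
      1 / Real.log R < |kS S * AV (prK K) S (mu c) (R ^ η₀) - Am c|}.Finite ∧
    ({c : I | D c ≤ R ∧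
      1 / Real.log R < |kS S * AV (prK K) S (mu c) (R ^ η₀) - Am c|}.ncard : ℝ) ≤
      R ^ (1 / 2 : ℝ)

end H32.AQ
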