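import Pool.Agent.H57.SL.Lsa
import Pool.Agent.H57.SL.Bsa
import Pool.Agent.H57.SL.Amt
import Pool.Agent.H57.SL.Idn
import Pool.Agent.H32.AQ.Int

/-!
# H32 AQ VFO: `AA3`, `AA4`, `AAX` from `AC1` and `AMX` (copy of H57/SL/Vfo for an abstract family)
-/

set_option autoImplicit false

open scoped NumberField Classical
open IsDedekindDomain H63.MA NumberField H36.QA H57.LI H57.LC H67.SX H38.ML H57.SL

noncomputable section

namespace H32.AQ

private theorem vfo_core (K : IntermediateField ℚ QBar) [NumberField K] {I : Type}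
    (S : Finset (Pl K)) (D : I → ℝ) (mu : I → Pl K → ℝ) (hD : ∀ c, 1 ≤ D c)
    (hmu2 : ∀ c l, |mu c l| ≤ 2) (hX : AMX S D mu) (Am : I → ℝ) (C : ℝ) (A : ℕ) (η : ℝ) (_ : 1 ≤ C) (hη : 0 < η)
    (hη1 : η ≤ 1 / 4) (hm : ∀ c : I, ∀ Y : ℝ, 1 ≤ Y →
      |FF S (mu c) Y - Am c * Y| ≤ C * (D c) ^ A * Y ^ (1 - η)) (A₁ B : ℕ) (ε : ℝ) (hε : 0 < ε) :
    ∃ R₀ : ℝ, 3 ≤ R₀ ∧ ∀ R : ℝ, R₀ ≤ R → 1 ≤ Real.log R ∧ ∀ J : Set (I),
      (∀ c ∈ J, (D c) ≤ R ^ A₁ ∧ ¬ ((∀ Y : ℝ, Real.exp (Real.log (Real.log R) ^ 3) ≤ Y →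
        |FF S (mu c) Y - Am c * Y| ≤ Y / Real.log R ^ B) ∧
        ∀ V : ℝ, Real.exp (Real.log (Real.log R) ^ 3) ≤ V → V ≤ R →
          |kS S * AV (prK K) S (mu c) V - Am c| ≤ 1 / Real.log R ^ B)) →
      J.Finite ∧ (J.ncard : ℝ) ≤ R ^ ε := by
  obtain ⟨A', B', B'', R₁, hR₁, hlsb⟩ := lsb K S (A₁ * A + 1) B η hη hη1
  obtain ⟨B1, B2, R₂, hR₂, hbsb⟩ := bsb (prK K) B' A'
  obtain ⟨R₃, hR₃, hmux⟩ := hX A₁ B2 B1 ε hε
  obtain ⟨R₄, hR₄, hthr⟩ := thr (2 * B1 + B'')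
  refine ⟨max (max (max R₁ R₂) (max R₃ R₄)) (max C 8), ?_, ?_⟩
  · exact hR₁.trans ((le_max_left _ _).trans ((le_max_left _ _).trans (le_max_left _ _)))
  intro R hR
  have hR1 : R₁ ≤ R := ((le_max_left _ _).trans ((le_max_left _ _).trans (le_max_left _ _))).trans hR
  have hR2 : R₂ ≤ R := ((le_max_right _ _).trans ((le_max_left _ _).trans (le_max_left _ _))).trans hR
  have hR3 : R₃ ≤ R := ((le_max_left _ _).trans ((le_max_right _ _).trans (le_max_left _ _))).trans hR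
  have hR4 : R₄ ≤ R := ((le_max_right _ _).trans ((le_max_right _ _).trans (le_max_left _ _))).trans hR
  have hR5 : C ≤ R := ((le_max_left _ _).trans (le_max_right _ _)).trans hR
  have hR6 : 8 ≤ R := ((le_max_right _ _).trans (le_max_right _ _)).trans hR
  have hR0 : 0 < R := by linarith
  have hlog2 : 2 ≤ Real.log R := by
    have h1 : Real.log 8 ≤ Real.log R := Real.log_le_log (by norm_num) hR6
    have h2 : Real.log 8 = 3 * Real.log 2 := by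
      rw [show (8 : ℝ) = 2 ^ (3 : ℕ) by norm_num, Real.log_pow]
      norm_num
    have h3 := Real.log_two_gt_d9
    linarith
  have hlog1 : 1 ≤ Real.log R := by linarith
  refine ⟨hlog1, ?_⟩
  intro J hJ
  apply hmux R hR3 J
  intro c hc
  obtain ⟨hcD, hcn⟩ := hJ c hc
  refine ⟨hcD, ?_⟩
  by_contra hno
  apply hcn
  have hno' : ∀ e : Finset (Pl K), (prK K).nn e ≤ Real.log R ^ B1 →
      ∀ Z : ℝ, Real.exp (Real.log (Real.log (Real.sqrt R)) ^ 3) ≤ Z →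
        |(prK K).SS (off (S ∪ e) (mu c)) Z| ≤ Z / Real.log R ^ B2 := by
    intro e he Z hZ
    by_contra hlt
    exact hno ⟨e, he, Z, hZ, not_le.1 hlt⟩
  have hmu : ∀ l, |(mu c) l| ≤ 2 := fun l => hmu2 c l
  have hbs := hbsb R hR2 S (mu c) hmu hno'
  have hD1 := hD c
  have hDle : C * (D c) ^ A ≤ R ^ (A₁ * A + 1) := by
    calc C * (D c) ^ A ≤ R * (R ^ A₁) ^ A := by gcongr
      _ = R ^ (A₁ * A + 1) := by rw [← pow_mul, pow_succ, mul_comm]
  have hZ1 : 1 ≤ Real.exp (Real.log (Real.log (Real.sqrt R)) ^ 3) * Real.log R ^ (2 * B1) := by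
    have h1 : 0 ≤ Real.log (Real.log (Real.sqrt R)) := by
      apply Real.log_nonneg
      rw [Real.log_sqrt hR0.le]
      linarith
    have h2 : 1 ≤ Real.exp (Real.log (Real.log (Real.sqrt R)) ^ 3) :=
      Real.one_le_exp (pow_nonneg h1 3)
    exact one_le_mul_of_one_le_of_one_le h2 (one_le_pow₀ hlog1)
  have hth := hthr R hR4
  have hpB : 1 ≤ Real.log R ^ B'' := one_le_pow₀ hlog1
  have hth1 : Real.exp (Real.log (Real.log (Real.sqrt R)) ^ 3) * Real.log R ^ (2 * B1) *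
      Real.log R ^ B'' ≤ Real.exp (Real.log (Real.log R) ^ 3) := by
    rw [mul_assoc, ← pow_add]
    exact hth
  have hth2 : Real.exp (Real.log (Real.log (Real.sqrt R)) ^ 3) * Real.log R ^ (2 * B1) ≤
      Real.exp (Real.log (Real.log R) ^ 3) :=
    (le_mul_of_one_le_right (by linarith) hpB).trans hth1
  obtain ⟨ha, hb⟩ := hlsb R hR1 (mu c) hmu (Am c) (C * (D c) ^ A) _ hZ1 hDle (hm c) hbs
  exact ⟨fun Y hY => ha Y (hth1.trans hY), fun V hV hVR => hb V (hth2.trans hV) hVR⟩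

private theorem vfo_log (η₀ : ℝ) (h : 0 < η₀) : ∃ R₀ : ℝ, 3 ≤ R₀ ∧ ∀ R : ℝ, R₀ ≤ R →
    Real.exp (Real.log (Real.log R) ^ 3) ≤ R ^ η₀ := by
  have h1 := (Real.isLittleO_pow_log_id_atTop (n := 3)).bound h
  have h2 := Real.tendsto_log_atTop.eventually h1
  obtain ⟨R₀, hR₀⟩ := Filter.eventually_atTop.1 h2
  refine ⟨max R₀ 3, le_max_right _ _, ?_⟩
  intro R hR
  have h3 := hR₀ R ((le_max_left _ _).trans hR)
  have hR3 : 3 ≤ R := (le_max_right _ _).trans hR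
  have hlog : 0 ≤ Real.log R := Real.log_nonneg (by linarith)
  rw [id, Real.norm_of_nonneg hlog] at h3
  rw [Real.rpow_def_of_pos (by linarith), Real.exp_le_exp, mul_comm]
  exact (Real.le_norm_self _).trans h3

private theorem vfo_nonneg (x M η : ℝ) (hM : 1 ≤ M) (hη : 0 < η) (f : ℝ → ℝ)
    (hf : ∀ Y, 0 ≤ f Y) (h : ∀ Y : ℝ, 1 ≤ Y → |f Y - x * Y| ≤ M * Y ^ (1 - η)) : 0 ≤ x := by
  by_contra hx
  push Not at hx
  have hb : 1 ≤ M / (-x) + 1 := by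
    have : 0 ≤ M / (-x) := div_nonneg (by linarith) (by linarith)
    linarith
  have hY : 1 ≤ (M / (-x) + 1) ^ (1 / η) := Real.one_le_rpow hb (by positivity)
  have hY0 : 0 < (M / (-x) + 1) ^ (1 / η) := by linarith
  have hYη : ((M / (-x) + 1) ^ (1 / η)) ^ η = M / (-x) + 1 := by
    rw [← Real.rpow_mul (by linarith), one_div, inv_mul_cancel₀ hη.ne', Real.rpow_one]
  obtain ⟨Y, hYdef⟩ : ∃ Y : ℝ, Y = (M / (-x) + 1) ^ (1 / η) := ⟨_, rfl⟩
  rw [← hYdef] at hY hY0 hYη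
  have h1 := (le_abs_self _).trans (h Y hY)
  have h2 : Y = Y ^ (1 - η) * Y ^ η := by
    rw [← Real.rpow_add hY0]
    simp
  have h3 : (-x) * Y ≤ M * Y ^ (1 - η) := by
    have := hf Y
    linarith
  have h4 : 0 < Y ^ (1 - η) := Real.rpow_pos_of_pos hY0 _
  have h5 : (-x) * Y ^ η ≤ M := by
    have h6 : (-x * Y ^ η) * Y ^ (1 - η) ≤ M * Y ^ (1 - η) := by
      calc (-x * Y ^ η) * Y ^ (1 - η) = -x * (Y ^ (1 - η) * Y ^ η) := by ring
        _ = -x * Y := by rw [← h2]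
        _ ≤ _ := h3
    exact le_of_mul_le_mul_right h6 h4
  rw [hYη] at h5
  have h6 : (-x) * (M / (-x) + 1) = M - x := by
    have : -x ≠ 0 := by linarith
    rw [mul_add, mul_div_cancel₀ _ this]
    ring
  rw [h6] at h5
  linarith

theorem vfo (K : IntermediateField ℚ QBar) [NumberField K] {I : Type}
    (S : Finset (Pl K)) (D : I → ℝ) (mu : I → Pl K → ℝ) (hD : ∀ c, 1 ≤ D c)
    (hmu2 : ∀ c l, |mu c l| ≤ 2) (hmu1 : ∀ c l, -1 ≤ mu c l) (h1 : AC1 S D mu)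
    (hX : AMX S D mu) : ∃ Am : I → ℝ, AA3 S D mu Am ∧ AA4 S D mu Am ∧ AAX S D mu Am := by
  obtain ⟨C₁, A, δ, hC₁, hδ, hδ1, hpc⟩ := h1
  obtain ⟨C₂, hC₂, hbsa⟩ := bsa (prK K) C₁ δ hC₁ hδ hδ1
  obtain ⟨C₃, η, hC₃, hη, hη1, hlsa⟩ := lsa K S δ hδ hδ1
  obtain ⟨C₅, hC₅, hamt⟩ := amt K
  have hmu : ∀ (c : I) l, |(mu c) l| ≤ 2 := hmu2
  have hex : ∀ c : I, ∃ L : ℝ, ∀ Y : ℝ, 1 ≤ Y →
      |FF S (mu c) Y - L * Y| ≤ C₃ * (C₂ * (C₁ * (D c) ^ A)) * Y ^ (1 - η) := by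
    intro c
    have hDA : 1 ≤ (D c) ^ A := one_le_pow₀ (hD c)
    have hD1 : 1 ≤ C₁ * (D c) ^ A := one_le_mul_of_one_le_of_one_le hC₁ hDA
    refine hlsa (mu c) (hmu c) (C₂ * (C₁ * (D c) ^ A)) (one_le_mul_of_one_le_of_one_le hC₂ hD1) ?_
    refine hbsa S (mu c) (hmu c) (C₁ * (D c) ^ A) (by linarith) ?_
    intro e Z hZ
    refine (hpc c e Z hZ).trans (le_of_eq ?_)
    ring
  choose Am hAm using hex
  obtain ⟨C₄, hC₄def⟩ : ∃ C₄ : ℝ, C₄ = C₃ * (C₂ * C₁) := ⟨_, rfl⟩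
  have hC₄ : 1 ≤ C₄ := by
    rw [hC₄def]
    exact one_le_mul_of_one_le_of_one_le hC₃ (one_le_mul_of_one_le_of_one_le hC₂ hC₁)
  have hm : ∀ c : I, ∀ Y : ℝ, 1 ≤ Y →
      |FF S (mu c) Y - Am c * Y| ≤ C₄ * (D c) ^ A * Y ^ (1 - η) := by
    intro c Y hY
    refine (hAm c Y hY).trans (le_of_eq ?_)
    rw [hC₄def]
    ring
  have hmq : ∀ c : I, ∀ Y : ℝ, 0 ≤ FF S (mu c) Y ∧
      (1 ≤ Y → FF S (mu c) Y ≤ C₅ * Y * (1 + Real.log Y) ^ 3) := by
    intro c Y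
    have hl : ∀ l, 0 ≤ 1 + mu c l ∧ 1 + mu c l ≤ 3 := fun l => by
      have h2 := hmu1 c l
      have h3 := (abs_le.1 (hmu2 c l)).2
      constructor <;> linarith
    rw [← idn]
    refine ⟨Finset.sum_nonneg fun q _ => Finset.prod_nonneg fun l _ => (hl l).1, fun hY => ?_⟩
    refine le_trans ?_ (hamt Y hY)
    have h2 : ∀ q ∈ AS K S Y, ∏ l ∈ q, (1 + mu c l) ≤ (3 : ℝ) ^ q.card := by
      intro q _
      rw [← Finset.prod_const]
      exact Finset.prod_le_prod (fun l _ => (hl l).1) fun l _ => (hl l).2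
    refine (Finset.sum_le_sum h2).trans ?_
    refine Finset.sum_le_sum_of_subset_of_nonneg ?_ fun q _ _ => by positivity
    intro q hq
    unfold AS at hq
    rw [Finset.mem_filter, mem_AF] at hq
    rw [(prK K).mem_SF]
    refine le_trans (le_of_eq ?_) hq.1
    unfold Pr.nn nr
    exact Finset.prod_congr rfl fun l _ => by rw [prK_N]
  refine ⟨Am, ?_, ?_, ?_⟩
  · -- LS3
    have hA0 : (0 : ℝ) ≤ A / η := by positivity
    refine ⟨C₅ * (1 + A / η) ^ 3 + C₄, A, η, ?_, hη, by linarith, ?_⟩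
    · have : 0 ≤ C₅ * (1 + A / η) ^ 3 := by positivity
      linarith
    intro c
    have hDc := hD c
    have hDA : 1 ≤ (D c) ^ A := one_le_pow₀ hDc
    have hM : 1 ≤ C₄ * (D c) ^ A := one_le_mul_of_one_le_of_one_le hC₄ hDA
    refine ⟨?_, ?_, ?_⟩
    · refine vfo_nonneg (Am c) (C₄ * (D c) ^ A) η hM hη (fun Y => FF S (mu c) Y) (fun Y => (hmq c Y).1) ?_
      intro Y hY
      exact hm c Y hY
    · have hY : 1 ≤ ((D c) ^ A) ^ (1 / η) := Real.one_le_rpow hDA (by positivity)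
      have hYη : (((D c) ^ A) ^ (1 / η)) ^ η = (D c) ^ A := by
        rw [← Real.rpow_mul (by linarith), one_div, inv_mul_cancel₀ hη.ne', Real.rpow_one]
      have hYl : Real.log (((D c) ^ A) ^ (1 / η)) = A / η * Real.log (D c) := by
        rw [Real.log_rpow (by linarith), Real.log_pow]
        ring
      obtain ⟨Y, hYdef⟩ : ∃ Y : ℝ, Y = ((D c) ^ A) ^ (1 / η) := ⟨_, rfl⟩
      rw [← hYdef] at hY hYη hYl
      have hY0 : 0 < Y := by linarith
      have h2 := (neg_abs_le _).trans' (neg_le_neg (hm c Y hY))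
      have h3 := (hmq c Y).2 hY
      have h4 : C₄ * (D c) ^ A * Y ^ (1 - η) = C₄ * Y := by
        rw [← hYη, mul_assoc, ← Real.rpow_add hY0]
        simp
      rw [h4] at h2
      have h5 : Am c * Y ≤ (C₅ * (1 + Real.log Y) ^ 3 + C₄) * Y := by linarith
      have h6 : Am c ≤ C₅ * (1 + Real.log Y) ^ 3 + C₄ := le_of_mul_le_mul_right h5 hY0
      refine h6.trans ?_
      have hl : 0 ≤ Real.log (D c) := Real.log_nonneg hDc
      have h7 : 1 + Real.log Y ≤ (1 + A / η) * (1 + Real.log (D c)) := by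
        rw [hYl]
        nlinarith
      have h8 : 0 ≤ 1 + Real.log Y := by
        have := Real.log_nonneg hY
        linarith
      have h9 : 1 ≤ (1 + Real.log (D c)) ^ 3 := one_le_pow₀ (by linarith)
      calc C₅ * (1 + Real.log Y) ^ 3 + C₄
          ≤ C₅ * ((1 + A / η) * (1 + Real.log (D c))) ^ 3 + C₄ * (1 + Real.log (D c)) ^ 3 := by
            have h10 : C₄ ≤ C₄ * (1 + Real.log (D c)) ^ 3 :=
              le_mul_of_one_le_right (by linarith) h9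
            have h11 : C₅ * (1 + Real.log Y) ^ 3 ≤
                C₅ * ((1 + A / η) * (1 + Real.log (D c))) ^ 3 := by gcongr
            linarith
        _ = (C₅ * (1 + A / η) ^ 3 + C₄) * (1 + Real.log (D c)) ^ 3 := by ring
    · intro Y hY
      refine (hm c Y hY).trans ?_
      have h2 : 0 ≤ C₅ * (1 + A / η) ^ 3 := by positivity
      have h3 : 0 < Y ^ (1 - η) := Real.rpow_pos_of_pos (by linarith) _
      have h4 : C₄ ≤ C₅ * (1 + A / η) ^ 3 + C₄ := by linarith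
      gcongr
  · -- LS4
    intro A₁ B ε hε
    obtain ⟨R₀, hR₀, hR⟩ := vfo_core K S D mu hD hmu2 hX Am C₄ A η hC₄ hη hη1 hm A₁ B ε hε
    refine ⟨R₀, hR₀, ?_⟩
    intro R hRR J hJ
    refine (hR R hRR).2 J ?_
    intro c hc
    obtain ⟨h2, Y, hY, hlt⟩ := hJ c hc
    refine ⟨h2, fun h3 => ?_⟩
    have h4 := h3.1 Y hY
    exact absurd hlt (not_lt.2 h4)
  · -- APX
    intro η₀ hη₀ hη₀1
    obtain ⟨R₀, hR₀, hR⟩ := vfo_core K S D mu hD hmu2 hX Am C₄ A η hC₄ hη hη1 hm 1 2 (1 / 2) (by norm_num)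
    obtain ⟨R₁, hR₁, hR'⟩ := vfo_log η₀ hη₀
    refine ⟨max R₀ R₁, hR₀.trans (le_max_left _ _), ?_⟩
    intro R hRR
    obtain ⟨hlog, hJ⟩ := hR R ((le_max_left _ _).trans hRR)
    have hlo := hR' R ((le_max_right _ _).trans hRR)
    have hR3 : 3 ≤ R := hR₀.trans ((le_max_left _ _).trans hRR)
    apply hJ
    rintro c ⟨hcD, hlt⟩
    refine ⟨by rw [pow_one]; exact hcD, fun h3 => ?_⟩
    have h4 := h3.2 (R ^ η₀) hlo (by
      calc R ^ η₀ ≤ R ^ (1 : ℝ) := Real.rpow_le_rpow_of_exponent_le (by linarith) hη₀1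
        _ = R := Real.rpow_one R)
    have h5 : 1 / Real.log R ^ 2 ≤ 1 / Real.log R := by
      refine one_div_le_one_div_of_le (by linarith) ?_
      nlinarith
    linarith

end H32.AQ
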