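import Pool.Agent.H77.AQ.Pc
import Pool.Agent.H32.AQ.Vfo
import Pool.Agent.H32.AQ.Mux
import Pool.Agent.H32.AQ.Vfc

/-!
# H32 AQ LA: the chapter LA of AQ (MP_b39724_nt): LA3, LA4, LA5

`I` is the type of the characters in `H38.MT.Ch K`, `D = cf Q S`, `mu = H67.AQ.mu Q`, `r c c'`: `c' = c` or `c' = c⁻¹` (classes of at most two elements).
-/

set_option autoImplicit false

open scoped NumberField Classical
open IsDedekindDomain H63.MA NumberField H36.QA H57.LI H57.LC H38.ML Filter Topology H67.AQ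

noncomputable section

namespace H32.AQ

variable {K : IntermediateField ℚ QBar} [NumberField K]

private theorem la_image (Z : Set (Gal(QBar/K) →* Multiplicative (ZMod 3)))
    (hZ : ∀ χ ∈ Z, χ ∈ H38.MT.Ch K) :
    Z = (fun c : H38.MT.Ch K => c.1) '' {c : H38.MT.Ch K | c.1 ∈ Z} := by
  ext χ
  constructor
  · intro h
    exact ⟨⟨χ, hZ χ h⟩, h, rfl⟩
  · rintro ⟨c, hc, rfl⟩
    exact hc

private theorem la_inj : Function.Injective (fun c : H38.MT.Ch K => c.1) :=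
  Subtype.val_injective

theorem la (S : Finset (Pl K)) (Q : DP K QBar) (hI : ICG (Module.finrank ℚ K))
    (hC : CRC S Q) : ∃ Am : (Gal(QBar/K) →* Multiplicative (ZMod 3)) → ℝ,
      LA3 S Q Am ∧ LA4 S Q Am ∧ (MS3 S Q → LA5 S Q Am) := by
  obtain ⟨D, hDd⟩ : ∃ D : H38.MT.Ch K → ℝ, D = fun c => H38.MT.cf Q S c.1 := ⟨_, rfl⟩
  obtain ⟨mu', hmd⟩ : ∃ m : H38.MT.Ch K → Pl K → ℝ, m = fun c => mu Q c.1 := ⟨_, rfl⟩
  have hD : ∀ c, 1 ≤ D c := fun c => by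
    rw [hDd]
    exact H77.AQ.one_le_cf Q S c.1
  have hmu2 : ∀ c l, |mu' c l| ≤ 2 := fun c l => by
    rw [hmd]
    exact (H77.AQ.mu_bd Q c.1 l).1
  have hmu1 : ∀ c l, -1 ≤ mu' c l := fun c l => by
    rw [hmd]
    exact (H77.AQ.mu_bd Q c.1 l).2.1
  have h1 : AC1 S D mu' := by
    obtain ⟨C, A, δ, hC1, hδ, hδ4, h⟩ := H77.AQ.pc1 S Q hC hI
    refine ⟨C, A, δ, hC1, hδ, hδ4, fun c e Y hY => ?_⟩
    rw [hDd, hmd]
    exact h c.1 c.2 e Y hY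
  have h2 : AC2 S D mu' (fun c c' => c'.1 = c.1 ∨ c'.1 = c.1⁻¹) := by
    obtain ⟨C, A, δ, hC1, hδ, hδ4, h⟩ := H77.AQ.pc2 S Q hC hI
    refine ⟨C, A, δ, hC1, hδ, hδ4, fun c c' hr e Y hY => ?_⟩
    rw [hDd, hmd]
    exact h c.1 c.2 c'.1 c'.2 (fun h3 => hr (Or.inl h3)) (fun h3 => hr (Or.inr h3)) e Y hY
  have hX : AMX S D mu' := by
    refine mux S D mu' (fun c c' => c'.1 = c.1 ∨ c'.1 = c.1⁻¹) ⟨fun c => Or.inl rfl, ?_, ?_⟩
      ?_ hD hmu2 h1 h2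
    · rintro x y (h | h)
      · exact Or.inl h.symm
      · right
        rw [h, inv_inv]
    · rintro x y z (h | h) (h' | h')
      · exact Or.inl (h'.trans h)
      · exact Or.inr (by rw [h', h])
      · exact Or.inr (h'.trans h)
      · exact Or.inl (by rw [h', h, inv_inv])
    · intro x
      have hsub : {y : H38.MT.Ch K | y.1 = x.1 ∨ y.1 = x.1⁻¹} ⊆
          {x, (⟨x.1⁻¹, H77.AQ.ch_inv x.2⟩ : H38.MT.Ch K)} := by
        rintro y (h | h)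
        · exact Or.inl (Subtype.ext h)
        · exact Or.inr (Subtype.ext h)
      have hfin : ({x, (⟨x.1⁻¹, H77.AQ.ch_inv x.2⟩ : H38.MT.Ch K)} : Set (H38.MT.Ch K)).Finite :=
        Set.toFinite _
      refine ⟨hfin.subset hsub, (Set.ncard_le_ncard hsub hfin).trans ?_⟩
      exact (Set.ncard_insert_le _ _).trans (by rw [Set.ncard_singleton]; norm_num)
  obtain ⟨Am, hA3, hA4, hAX⟩ := vfo K S D mu' hD hmu2 hmu1 h1 hX
  obtain ⟨Am', hAm'⟩ : ∃ Am' : (Gal(QBar/K) →* Multiplicative (ZMod 3)) → ℝ,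
    ∀ c : H38.MT.Ch K, Am' c.1 = Am c :=
    ⟨fun χ => if h : χ ∈ H38.MT.Ch K then Am ⟨χ, h⟩ else 0, fun c => dif_pos c.2⟩
  refine ⟨Am', ?_, ?_, ?_⟩
  · obtain ⟨C, A, δ, hC1, hδ, hδ1, h⟩ := hA3
    refine ⟨C, A, δ, hC1, hδ, hδ1, fun χ hχ => ?_⟩
    obtain ⟨h3, h4, h5⟩ := h ⟨χ, hχ⟩
    have e : Am' χ = Am ⟨χ, hχ⟩ := hAm' ⟨χ, hχ⟩
    rw [e]
    rw [hDd] at h4 h5
    rw [hmd] at h5
    refine ⟨h3, h4, fun Y hY => ?_⟩
    rw [H77.AQ.idn_mq]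
    exact h5 Y hY
  · intro A₁ B ε hε
    obtain ⟨R₀, hR₀, h⟩ := hA4 A₁ B ε hε
    refine ⟨R₀, hR₀, fun R hR J hJ => ?_⟩
    have hJ' := la_image J fun χ hχ => (hJ χ hχ).1
    have h3 := h R hR {c : H38.MT.Ch K | c.1 ∈ J} (by
      intro c hc
      obtain ⟨-, h4, Y, hY, h5⟩ := hJ c.1 hc
      rw [hDd, hmd]
      refine ⟨h4, Y, hY, ?_⟩
      rw [H77.AQ.idn_mq, hAm' c] at h5
      exact h5)
    rw [hJ']
    refine ⟨h3.1.image _, ?_⟩
    rw [Set.ncard_image_of_injective _ la_inj]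
    exact h3.2
  · intro hM χ₁ hχ₁
    obtain ⟨κ, m, C, A, δ, hκ, hC1, hδ, hδ1, hm, hm1, hM⟩ := hM χ₁ hχ₁
    have hZ : ∀ R : ℝ, H38.MT.CX Q S χ₁ R = (fun c : H38.MT.Ch K => c.1) ''
        {c : H38.MT.Ch K | c.1 ∈ H38.MT.CX Q S χ₁ R} := fun R =>
      la_image _ fun χ hχ => hχ.1
    have hsum : ∀ (R : ℝ) (f : (Gal(QBar/K) →* Multiplicative (ZMod 3)) → ℝ),
        ∑ᶠ χ ∈ H38.MT.CX Q S χ₁ R, f χ =
          ∑ᶠ c ∈ {c : H38.MT.Ch K | c.1 ∈ H38.MT.CX Q S χ₁ R}, f c.1 := by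
      intro R f
      conv_lhs => rw [hZ R]
      exact finsum_mem_image la_inj.injOn
    obtain ⟨a, ha, hlim⟩ := vfc K S D mu' hD hmu2 Am hA3 hAX
      (fun R => {c : H38.MT.Ch K | c.1 ∈ H38.MT.CX Q S χ₁ R}) (by
        intro R c hc
        rw [hDd]
        exact hc.2.2) κ m C A δ hκ hC1 hδ hm hm1 (by
        intro R hR
        exact (hM ∅ (by simp) R hR).1.preimage la_inj.injOn) (by
        intro q hq R hR
        have h3 := (hM q hq R hR).2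
        rw [hsum R fun χ => ∏ l ∈ q, mu Q χ l] at h3
        rw [hmd]
        exact h3)
    refine ⟨a, ha, ?_⟩
    have e : (fun R : ℝ => (∑ᶠ χ ∈ H38.MT.CX Q S χ₁ R, Am' χ) / R) =
        fun R : ℝ => (∑ᶠ c ∈ {c : H38.MT.Ch K | c.1 ∈ H38.MT.CX Q S χ₁ R}, Am c) / R := by
      funext R
      rw [hsum R Am']
      congr 1
      exact finsum_mem_congr rfl fun c _ => hAm' c
    rw [e]
    exact hlim

end H32.AQ
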